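import Pool.Agent.H63.WT.TB

/-!
# Monic polynomials close to an irreducible one are irreducible
-/

set_option autoImplicit false

open Polynomial Matrix Pool.Agent.H63.WT Filter Topology

namespace Pool.Agent.H17.WT

/-- the monic polynomial with given lower coefficients -/
noncomputable def mp {F : Type} [Field F] {a : ℕ} (u : Fin a → F) : F[X] :=
  X ^ a + ∑ i : Fin a, C (u i) * X ^ (i : ℕ)

lemma mp_monic {F : Type} [Field F] {a : ℕ} (u : Fin a → F) : (mp u).Monic :=
  monic_X_pow_add (degree_sum_fin_lt u)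

lemma mp_deg {F : Type} [Field F] {a : ℕ} (u : Fin a → F) : (mp u).natDegree = a := by
  unfold mp
  rw [natDegree_add_eq_left_of_degree_lt, natDegree_X_pow]
  rw [degree_X_pow]
  exact degree_sum_fin_lt u

lemma mp_cont {F : Type} [NontriviallyNormedField F] {a : ℕ} (k : ℕ) :
    Continuous fun u : Fin a → F => (mp u).coeff k := by
  unfold mp
  simp only [coeff_add, finsetSum_coeff, coeff_C_mul]
  fun_prop

lemma mp_coeff {F : Type} [Field F] (f : F[X]) (hf : f.Monic) (a : ℕ) (ha : f.natDegree = a) :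
    mp (fun i : Fin a => f.coeff i) = f := by
  subst ha
  unfold mp
  conv_rhs => rw [hf.as_sum]
  rw [Finset.sum_range fun i => C (f.coeff i) * X ^ i]

lemma iro_aux {F : Type} [NontriviallyNormedField F] [ProperSpace F] (p : F[X]) (hp : p.Monic)
    (hi : Irreducible p) (R : ℝ) (hR : 0 ≤ R) (a b : ℕ) (hab : a + b = p.natDegree) (ha : 0 < a)
    (hb : 0 < b) : ∃ δ : ℝ, 0 < δ ∧ ∀ f g : F[X], f.Monic → g.Monic → f.natDegree = a →
      g.natDegree = b → (∀ i, ‖f.coeff i‖ ≤ R) → (∀ i, ‖g.coeff i‖ ≤ R) →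
      δ ≤ ∑ k ∈ Finset.range (p.natDegree + 1), ‖(f * g - p).coeff k‖ := by
  classical
  let G : (Fin a → F) × (Fin b → F) → ℝ := fun q =>
    ∑ k ∈ Finset.range (p.natDegree + 1), ‖(mp q.1 * mp q.2 - p).coeff k‖
  have hG : Continuous G := by
    refine continuous_finsetSum _ fun k _ => continuous_norm.comp ?_
    simp only [coeff_sub, coeff_mul]
    refine (continuous_finsetSum _ fun x _ => ?_).sub continuous_const
    exact ((mp_cont x.1).comp continuous_fst).mul ((mp_cont x.2).comp continuous_snd)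
  have hpos : ∀ q, 0 < G q := by
    intro q
    refine lt_of_le_of_ne (Finset.sum_nonneg fun k _ => norm_nonneg _) fun h0 => ?_
    have h1 := (Finset.sum_eq_zero_iff_of_nonneg fun k _ => norm_nonneg _).1 h0.symm
    have h2 : mp q.1 * mp q.2 = p := by
      have hd : (mp q.1 * mp q.2).natDegree = p.natDegree := by
        rw [(mp_monic q.1).natDegree_mul (mp_monic q.2), mp_deg, mp_deg, hab]
      ext k
      by_cases hk : k < p.natDegree + 1
      · have h3 := norm_eq_zero.1 (h1 k (Finset.mem_range.2 hk))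
        rw [coeff_sub] at h3
        exact sub_eq_zero.1 h3
      · rw [coeff_eq_zero_of_natDegree_lt (by omega), coeff_eq_zero_of_natDegree_lt (by omega)]
    rcases hi.isUnit_or_isUnit h2.symm with hu | hu
    · have := natDegree_eq_zero_of_isUnit hu
      rw [mp_deg] at this
      omega
    · have := natDegree_eq_zero_of_isUnit hu
      rw [mp_deg] at this
      omega
  have hcpt : IsCompact (Metric.closedBall (0 : Fin a → F) R ×ˢ
      Metric.closedBall (0 : Fin b → F) R) :=
    (isCompact_closedBall _ _).prod (isCompact_closedBall _ _)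
  obtain ⟨q, -, hq⟩ := hcpt.exists_isMinOn ⟨(0, 0), by simpa using hR⟩ hG.continuousOn
  refine ⟨G q, hpos q, fun f g hf hg hfa hgb hfR hgR => ?_⟩
  have hm := hq (show ((fun i : Fin a => f.coeff i), (fun i : Fin b => g.coeff i)) ∈
    Metric.closedBall (0 : Fin a → F) R ×ˢ Metric.closedBall (0 : Fin b → F) R by
      refine ⟨?_, ?_⟩
      · rw [mem_closedBall_zero_iff, pi_norm_le_iff_of_nonneg hR]
        exact fun i => hfR i
      · rw [mem_closedBall_zero_iff, pi_norm_le_iff_of_nonneg hR]
        exact fun i => hgR i)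
  have hm' : G q ≤ G ((fun i : Fin a => f.coeff i), (fun i : Fin b => g.coeff i)) := hm
  refine hm'.trans (le_of_eq ?_)
  change ∑ k ∈ Finset.range (p.natDegree + 1),
    ‖(mp (fun i : Fin a => f.coeff i) * mp (fun i : Fin b => g.coeff i) - p).coeff k‖ = _
  rw [mp_coeff f hf a hfa, mp_coeff g hg b hgb]

lemma gn_bd {F : Type} [NontriviallyNormedField F] [IsUltrametricDist F] (f g : F[X])
    (hf : f.Monic) (hg : g.Monic) (R : ℝ) (hR : ∀ i, ‖(f * g).coeff i‖ ≤ R) (i : ℕ) :
    ‖f.coeff i‖ ≤ R := by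
  let v : AbsoluteValue F ℝ := NormedField.toAbsoluteValue F
  have hna : IsNonarchimedean v := fun x y => IsUltrametricDist.norm_add_le_max x y
  have h1 := gaussNorm_mul hna one_pos f g
  have h2 : (f * g).gaussNorm v 1 ≤ R := by
    obtain ⟨j, hj⟩ := exists_eq_gaussNorm v 1 (f * g)
    rw [hj, one_pow, mul_one]
    exact hR j
  have h3 : ‖f.coeff i‖ ≤ f.gaussNorm v 1 := by
    have := le_gaussNorm v f zero_le_one i
    rw [one_pow, mul_one] at this
    exact this
  have h4 : 1 ≤ g.gaussNorm v 1 := by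
    have := le_gaussNorm v g zero_le_one g.natDegree
    rw [one_pow, mul_one, hg.coeff_natDegree] at this
    simpa using this
  have h5 : 0 ≤ f.gaussNorm v 1 := gaussNorm_nonneg v f zero_le_one
  nlinarith

theorem pf_IRO : T_IRO := by
  intro F _ _ _ _ p hp hi
  classical
  set n := p.natDegree with hn
  let R : ℝ := (∑ k ∈ Finset.range (n + 1), ‖p.coeff k‖) + 1
  have hRp : ∀ i, ‖p.coeff i‖ + 1 ≤ R := by
    intro i
    by_cases hk : i < n + 1
    · have := Finset.single_le_sum (f := fun k => ‖p.coeff k‖) (fun k _ => norm_nonneg _)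
        (Finset.mem_range.2 hk)
      simpa [R] using this
    · rw [coeff_eq_zero_of_natDegree_lt (by omega), norm_zero]
      have : 0 ≤ ∑ k ∈ Finset.range (n + 1), ‖p.coeff k‖ :=
        Finset.sum_nonneg fun k _ => norm_nonneg _
      simpa [R] using this
  have hR : 0 ≤ R := by
    have := hRp 0
    have := norm_nonneg (p.coeff 0)
    linarith
  have key : ∀ a ∈ Finset.range n, ∀ᶠ ε in 𝓝[>] (0 : ℝ), 0 < a → ∀ f g : F[X], f.Monic →
      g.Monic → f.natDegree = a → g.natDegree = n - a → (∀ i, ‖f.coeff i‖ ≤ R) →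
      (∀ i, ‖g.coeff i‖ ≤ R) → ¬ ∀ i, ‖(f * g - p).coeff i‖ < ε := by
    intro a ha
    rw [Finset.mem_range] at ha
    by_cases ha0 : 0 < a
    · obtain ⟨δ, hδ, h⟩ := iro_aux p hp hi R hR a (n - a) (by omega) ha0 (by omega)
      have hn1 : (0 : ℝ) < n + 1 := by positivity
      have : Set.Ioo (0 : ℝ) (δ / (n + 1)) ∈ 𝓝[>] (0 : ℝ) := Ioo_mem_nhdsGT (by positivity)
      filter_upwards [this] with ε hε _ f g hf hg hfa hgb hfR hgR hc
      have h1 := h f g hf hg hfa hgb hfR hgR
      have h2 : ∑ k ∈ Finset.range (p.natDegree + 1), ‖(f * g - p).coeff k‖ ≤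
          ∑ k ∈ Finset.range (p.natDegree + 1), ε :=
        Finset.sum_le_sum fun k _ => (hc k).le
      rw [Finset.sum_const, Finset.card_range, nsmul_eq_mul, ← hn] at h2
      have h3 : ((n + 1 : ℕ) : ℝ) * ε < δ := by
        have := hε.2
        rw [lt_div_iff₀ hn1] at this
        push_cast
        linarith
      rw [← hn] at h1
      linarith
    · exact Eventually.of_forall fun ε h => absurd h ha0
  have key2 := (Finset.eventually_all _).2 key
  have : Set.Ioo (0 : ℝ) 1 ∈ 𝓝[>] (0 : ℝ) := Ioo_mem_nhdsGT one_pos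
  obtain ⟨ε, h1, h2⟩ := (key2.and this).exists
  refine ⟨ε, h2.1, fun T hT hTd hc => ?_⟩
  rw [hT.irreducible_iff_natDegree']
  refine ⟨fun h => ?_, fun f g hf hg hfg hgd => ?_⟩
  · rw [h, natDegree_one] at hTd
    have := hi.natDegree_pos
    omega
  · have hTR : ∀ i, ‖(f * g).coeff i‖ ≤ R := by
      intro i
      rw [hfg]
      have : T.coeff i = p.coeff i + (T - p).coeff i := by
        rw [coeff_sub]
        ring
      rw [this]
      refine (norm_add_le _ _).trans ?_
      have := hRp i
      have := hc i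
      linarith [h2.2]
    have hfR := gn_bd f g hf hg R hTR
    have hgR := gn_bd g f hg hf R (by rwa [mul_comm])
    have hd := hf.natDegree_mul hg
    rw [hfg, hTd] at hd
    rw [Finset.mem_Ioc, hTd] at hgd
    refine h1 f.natDegree (Finset.mem_range.2 (by omega)) (by omega) f g hf hg rfl (by omega) hfR
      hgR ?_
    rw [hfg]
    exact hc

end Pool.Agent.H17.WT
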