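import Pool.Agent.H63.WT.TD

/-!
# The output of the relaxed local lemma, nonarchimedean fields (LOCF)

Added hypotheses: `T_GDT` and `T_I2D` (the class of the matrix `Phi` is in `I²`).
-/

set_option autoImplicit false

open Polynomial Matrix Pool.Agent.H63.WT
open Pool.Agent.H32.QC (Sol hil NI nsq)

namespace Pool.Agent.H17.WT

/-- the class of `Phi` is in `I²` -/
lemma phi_I2 (hGDT : T_GDT) (hI2D : T_I2D) {F : Type} [Field F] (h2 : (2 : F) ≠ 0)
    (P1 P2 M D z : F[X]) (h1 : P1.Monic) (hev : Even P1.natDegree) (hc2 : IsCoprime P1 P2)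
    (hcD : IsCoprime P1 D) (hcz : IsCoprime P1 z) (hd : P1 ∣ M - D * z ^ 2)
    (hn : IsSquare (nn P1 M)) : I2 (cls (Phi P1 P2 D)) := by
  obtain ⟨-, gS, gN, gM, -, gC, -⟩ := hGDT F P1 h1
  have hdet : ∀ h : F[X], IsCoprime P1 h → (gm P1 h).det ≠ 0 := fun h hh => (gN h).2 hh
  have hcDP : IsCoprime P1 (D * P2) := hcD.mul_right hc2
  have hS : SN (Phi P1 P2 D) := by
    refine ⟨?_, ?_⟩
    · exact Matrix.IsSymm.fromBlocks (gS _) (by simp) (gS _).neg
    · unfold Phi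
      rw [Matrix.det_fromBlocks_zero₂₁, Matrix.det_neg]
      exact mul_ne_zero (hdet _ hcDP)
        (mul_ne_zero (pow_ne_zero _ (neg_ne_zero.2 one_ne_zero)) (hdet _ hc2))
  rw [hI2D F h2 _ _ P1.natDegree hS (by rw [Fintype.card_sum, Fintype.card_fin, two_mul])]
  have e1 : (Phi P1 P2 D).det = (gm P1 (D * P2)).det * (gm P1 P2).det := by
    unfold Phi
    rw [Matrix.det_fromBlocks_zero₂₁, Matrix.det_neg, Fintype.card_fin, hev.neg_one_pow, one_mul]
  have h1n : (gm P1 1).det ≠ 0 := hdet 1 isCoprime_one_right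
  -- `nn P1 D` is a square
  have hz0 : nn P1 z ≠ 0 := mul_ne_zero (hdet z hcz) h1n
  have hMe : nn P1 M = nn P1 D * (nn P1 z * nn P1 z) := by
    have : nn P1 M = nn P1 (D * z ^ 2) := by
      unfold nn
      rw [gC _ _ hd]
    rw [this, gM, sq, gM]
  obtain ⟨s, hs⟩ := hn
  have hD : nn P1 D = (s / nn P1 z) * (s / nn P1 z) := by
    rw [hMe] at hs
    field_simp
    linear_combination hs
  refine ⟨s / nn P1 z * nn P1 P2 / (gm P1 1).det, ?_⟩
  rw [hev.neg_one_pow, one_mul, e1]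
  have e2 : (gm P1 (D * P2)).det * (gm P1 1).det = nn P1 D * nn P1 P2 := gM D P2
  have e3 : (gm P1 P2).det * (gm P1 1).det = nn P1 P2 := rfl
  have e4 : (gm P1 (D * P2)).det * (gm P1 P2).det * ((gm P1 1).det * (gm P1 1).det) =
      nn P1 D * nn P1 P2 * nn P1 P2 := by
    linear_combination (gm P1 P2).det * (gm P1 1).det * e2 + nn P1 D * nn P1 P2 * e3
  rw [hD] at e4
  field_simp at e4 ⊢
  linear_combination e4

theorem pf_LOCF (hDTE : T_DTE) (hLLP : T_LLP) (hODD : T_ODD) (hSPC : T_SPC) (hSGN : T_SGN)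
    (hEXF : T_EXF) (hLAL : T_LAL) (hCAD : T_CAD) (hIV : T_IV) (hHPR : T_HPR) (hGDT : T_GDT)
    (hI2D : T_I2D) : T_LOCF := by
  intro F _ _ _ _ e he P1 P2 D hm1 hm2 hsep hdeg hev hcD hr1 hr2 hcz
  have hLA : LA F := hLAL F
  have h2 : (2 : F) ≠ 0 := hLA.1
  have hNI := hLA.2 F inferInstance
  obtain ⟨iv1, iv2, -, -⟩ := hIV F h2 hNI.1 hNI.2
  obtain ⟨m, M0, R1, R2, U1, U2, z, dt, hz, hdv⟩ := hDTE F P1 P2 D hm1 hm2 hsep hdeg hev hcD hr1
    hr2 hcz
  set M : F[X] := C m * M0 with hM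
  have hcM : IsCoprime (P1 * P2) M :=
    (isCoprime_mul_unit_left_right ((isUnit_iff_ne_zero.2 dt.m0).map C) _ _).2 dt.cop
  have hsep' : (P2 * P1).Separable := by rw [mul_comm]; exact hsep
  have hcM' : IsCoprime (P2 * P1) M := by rw [mul_comm]; exact hcM
  have hdeg' : P1.natDegree + P2.natDegree = 7 := hdeg
  obtain ⟨-, a1, a2, -⟩ := hCAD F hLA P1 P2 R1 U1 M hm1 hm2 dt.monR1 dt.monU1 dt.fac1 hsep hcM
    dt.sq1 dt.nn1
  obtain ⟨-, b1, -, -⟩ := hCAD F hLA P2 P1 R2 U2 M hm2 hm1 dt.monR2 dt.monU2 dt.fac2 hsep' hcM'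
    dt.sq2 dt.nn2
  have hP12 : IsCoprime P1 P2 := hsep.isCoprime
  have hR1 : ∀ T : F[X], IsCoprime T (P1 * P2) → IsCoprime R1 T := by
    intro T hT
    have : IsCoprime T (R1 * U1) := by
      rw [← dt.fac1]
      exact IsCoprime.of_mul_right_left hT
    exact (IsCoprime.of_mul_right_left this).symm
  have hR2 : ∀ T : F[X], IsCoprime T (P1 * P2) → IsCoprime R2 T := by
    intro T hT
    have : IsCoprime T (R2 * U2) := by
      rw [← dt.fac2]
      exact IsCoprime.of_mul_right_right hT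
    exact (IsCoprime.of_mul_right_left this).symm
  have hspl : ∀ T : F[X], T.Monic → Irreducible T → IsCoprime T (P1 * P2) →
      cc P1 P2 R1 M T + cc P2 P1 R2 M T = 0 → SpR (P1 * P2) D T := fun T h1 h2 h3 h4 =>
    hSPC F hLA P1 P2 R1 R2 U1 U2 M D z T hm1 hm2 dt.monR1 dt.monR2 dt.monU1 dt.monU2 dt.fac1
      dt.fac2 hsep hdeg hcM dt.sq1 dt.sq2 dt.nn1 dt.nn2 hcD hz hdv h1 h2 h3 h4
  have heq : ∀ T' T : F[X], T'.Monic → Irreducible T' → T.Monic → Irreducible T → T' ∣ T →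
      T' = T := fun T' T h1 h2 h3 h4 h5 =>
    eq_of_monic_of_associated h1 h3 (h2.associated_of_dvd h4 h5)
  have hP1D : IsCoprime P1 D := IsCoprime.of_mul_left_left hcD
  have hP1z : IsCoprime P1 z := IsCoprime.of_mul_left_left hz
  have hP1s : P1.Separable := hsep.of_mul_left
  have hPhi : I2 (cls (Phi P1 P2 D)) := phi_I2 hGDT hI2D h2 P1 P2 M D z hm1 hev hP12 hP1D hP1z
    ((dvd_mul_right P1 P2).trans hdv) dt.nn1
  -- the end of the proof
  have fin : ∀ G' : F[X], G'.Monic → G'.Separable → Odd G'.natDegree → IsCoprime G' (P1 * P2) →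
      cc P1 P2 R1 M G' = 0 → hpr P1 G' D = e (cls (Phi P1 P2 D)) := by
    intro G' g1 g2 g3 g4 g5
    have hG1 : IsCoprime G' P1 := IsCoprime.of_mul_right_left g4
    have k1 := hSGN F hLA P1 P2 R1 U1 M D z G' hm1 hm2 dt.monR1 dt.monU1 dt.fac1 hsep hcM dt.sq1
      dt.nn1 hcD hz hdv g1 g3 hG1 g5
    have k2 := (hEXF F).2 e he _ hPhi
    have k3 := (hHPR F hLA P1 G' D hm1 hP1s hG1.symm hP1D).2.1
    rcases k3 with k3 | k3
    · rw [k3, k2.2 (k1.1 k3)]
    · rcases he.sgn (cls (Phi P1 P2 D)) with k4 | k4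
      · exfalso
        have k5 := k1.2 (k2.1 k4)
        rw [k3] at k5
        norm_num at k5
      · rw [k3, k4]
  -- one odd point
  have one : ∀ T : F[X], T.Monic → Irreducible T → Odd T.natDegree → IsCoprime T (P1 * P2) →
      cc P1 P2 R1 M T = 0 → cc P2 P1 R2 M T = 0 →
      ∃ G' : F[X], G'.Monic ∧ G'.Separable ∧ Odd G'.natDegree ∧ IsCoprime G' (P1 * P2) ∧
      (∀ T : F[X], T.Monic → Irreducible T → T ∣ G' → SpR (P1 * P2) D T) ∧
      hpr P1 G' D = e (cls (Phi P1 P2 D)) := by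
    intro T t1 t2 t3 t4 t5 t6
    refine ⟨T, t1, t2.separable, t3, t4, fun T' u1 u2 u3 => ?_, fin T t1 t2.separable t3 t4 t5⟩
    rw [heq T' T u1 u2 t1 t2 u3]
    exact hspl T t1 t2 t4 (by rw [t5, t6, add_zero])
  have hF := hLLP F m M0 P1 P2 R1 R2 U1 U2 dt
  unfold Fail at hF
  push Not at hF
  obtain ⟨T, t1, t2, t3, t4⟩ := hF
  by_cases hodd : Odd T.natDegree ∧ (cc P1 P2 R1 M T = 0 ∧ cc P2 P1 R2 M T = 0)
  · exact one T t1 t2 hodd.1 t3 hodd.2.1 hodd.2.2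
  · have hT : Even T.natDegree ∧ (cc P1 P2 R1 M T ≠ 0 ∧ cc P2 P1 R2 M T ≠ 0) := by
      refine t4 ?_
      intro h1 h2 h3
      exact hodd ⟨h1, h2, h3⟩
    obtain ⟨hTe, hT1, hT2⟩ := hT
    have hc1 : I2 (cc P1 P2 R1 M T) := a1 T (hR1 T t3)
    have hc2 : I2 (cc P2 P1 R2 M T) := b1 T (hR2 T t3)
    have hTz : cc P1 P2 R1 M T + cc P2 P1 R2 M T = 0 := by
      rw [← iv2 _ _ hc1 hc2 hT1 hT2]
      exact iv1 _ hc1
    obtain ⟨T1, s1, s2, s3, s4, s5⟩ := hODD F m M0 P1 P2 R1 R2 U1 U2 dt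
    by_cases h0 : cc P1 P2 R1 M T1 = 0
    · refine one T1 s1 s2 s3 s4 h0 ?_
      rw [← hM, h0, zero_add] at s5
      exact s5
    · have hd1 : I2 (cc P1 P2 R1 M T1) := a1 T1 (hR1 T1 s4)
      have hv : cc P1 P2 R1 M T1 = cc P1 P2 R1 M T := iv2 _ _ hd1 hc1 h0 hT1
      have hne : ¬ T ∣ T1 := by
        intro h
        have := heq T T1 t1 t2 s1 s2 h
        rw [this] at hTe
        exact (Nat.not_even_iff_odd.2 s3) hTe
      have hcT : IsCoprime T T1 := (t2.coprime_iff_not_dvd).2 hne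
      have hG1 : (T * T1).Monic := t1.mul s1
      have hG2 : (T * T1).Separable := t2.separable.mul s2.separable hcT
      have hG3 : Odd (T * T1).natDegree := by
        rw [t1.natDegree_mul s1]
        exact hTe.add_odd s3
      have hG4 : IsCoprime (T * T1) (P1 * P2) := t3.mul_left s4
      have hG5 : cc P1 P2 R1 M (T * T1) = 0 := by
        rw [a2 T T1 t1 s1 (hR1 T t3) (hR1 T1 s4), hv]
        exact iv1 _ hc1
      refine ⟨T * T1, hG1, hG2, hG3, hG4, fun T' u1 u2 u3 => ?_, fin _ hG1 hG2 hG3 hG4 hG5⟩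
      rcases u2.prime.dvd_or_dvd u3 with h | h
      · rw [heq T' T u1 u2 t1 t2 h]
        exact hspl T t1 t2 t3 hTz
      · rw [heq T' T1 u1 u2 s1 s2 h]
        exact hspl T1 s1 s2 s4 s5

end Pool.Agent.H17.WT
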