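import Pool.Agent.H63.WT.TA

/-!
# Scaling does not change the classes in `I²`
-/

set_option autoImplicit false

open Polynomial Matrix Pool.Agent.H63.WT
open Pool.Agent.H32.QC (Sol hil NI nsq)

namespace Pool.Agent.H17.WT

lemma sn_neg {F ι : Type} [Field F] [Fintype ι] [DecidableEq ι] {A : Matrix ι ι F} (h : SN A) :
    SN (-A) := by
  refine ⟨h.1.neg, ?_⟩
  rw [Matrix.det_neg]
  exact mul_ne_zero (pow_ne_zero _ (neg_ne_zero.2 one_ne_zero)) h.2

lemma sn_smul {F ι : Type} [Field F] [Fintype ι] [DecidableEq ι] {A : Matrix ι ι F} (h : SN A)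
    {c : F} (hc : c ≠ 0) : SN (c • A) := by
  refine ⟨h.1.smul c, ?_⟩
  rw [Matrix.det_smul]
  exact mul_ne_zero (pow_ne_zero _ hc) h.2

lemma sn_blocks {F ι κ : Type} [Field F] [Fintype ι] [DecidableEq ι] [Fintype κ] [DecidableEq κ]
    {A : Matrix ι ι F} {B : Matrix κ κ F} (hA : SN A) (hB : SN B) :
    SN (fromBlocks A 0 0 B) := by
  refine ⟨Matrix.IsSymm.fromBlocks hA.1 (by simp) hB.1, ?_⟩
  rw [Matrix.det_fromBlocks_zero₂₁]
  exact mul_ne_zero hA.2 hB.2

lemma tis_smul {F ι : Type} [Field F] [Fintype ι] {A : Matrix ι ι F} {r : ℕ} {c : F}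
    (hc : c ≠ 0) : TIs (c • A) r ↔ TIs A r := by
  unfold TIs
  refine exists_congr fun b => and_congr_right fun _ => forall_congr' fun i =>
    forall_congr' fun j => ?_
  rw [Matrix.smul_mulVec, dotProduct_smul, smul_eq_mul, mul_eq_zero, or_iff_right hc]

lemma met_smul {F ι : Type} [Field F] [Fintype ι] {A : Matrix ι ι F} {c : F}
    (hc : c ≠ 0) : Met (c • A) ↔ Met A := by
  unfold Met
  exact exists_congr fun r => and_congr_right fun _ => tis_smul hc

theorem pf_SCL (hIV : T_IV) (hI2D : T_I2D) (_hI2A : T_I2A) (hCLS : T_CLS) (hW0 : T_W0) :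
    T_SCL := by
  intro F _ h2 hNI hnsq c hc
  obtain ⟨c1, c2, c3, c4, c5⟩ := hCLS F h2
  have first : ∀ (ι : Type) [Fintype ι] [DecidableEq ι] (A : Matrix ι ι F), SN A →
      I2 (cls A) → cls (c • A) = cls A := by
    intro ι _ _ A hA hI
    obtain ⟨n, A', hA', hs, he⟩ := hI
    have hev : ∃ r, Fintype.card ι = 2 * r := by
      have h0 : cls (fromBlocks A 0 0 (-A')) = 0 := by
        rw [c2 _ _ _ _ hA (sn_neg hA'), c4 _ _ hA', he, add_neg_cancel]
      obtain ⟨r, hr, -⟩ := hW0 F h2 _ _ (sn_blocks hA (sn_neg hA')) h0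
      rw [Fintype.card_sum, Fintype.card_fin] at hr
      exact ⟨r - n, by omega⟩
    obtain ⟨r, hr⟩ := hev
    have hI : I2 (cls A) := ⟨n, A', hA', hs, he⟩
    have hI' : I2 (cls (c • A)) := by
      rw [hI2D F h2 ι _ r (sn_smul hA hc) hr, Matrix.det_smul, hr]
      obtain ⟨s, hs⟩ := (hI2D F h2 ι A r hA hr).1 hI
      refine ⟨c ^ r * s, ?_⟩
      calc (-1) ^ r * (c ^ (2 * r) * A.det) = c ^ (2 * r) * ((-1) ^ r * A.det) := by ring
        _ = c ^ r * s * (c ^ r * s) := by rw [hs]; ring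
    have hz : cls (c • A) = 0 ↔ cls A = 0 := by
      constructor
      · intro h
        exact c1 _ _ hA ((met_smul hc).1 (hW0 F h2 _ _ (sn_smul hA hc) h))
      · intro h
        exact c1 _ _ (sn_smul hA hc) ((met_smul hc).2 (hW0 F h2 _ _ hA h))
    by_cases h0 : cls A = 0
    · rw [h0, hz.2 h0]
    · exact (hIV F h2 hNI hnsq).2.1 _ _ hI' hI (fun h => h0 (hz.1 h)) h0
  refine ⟨first, ?_⟩
  intro ι κ _ _ _ _ A B hA hB hI
  have hM := sn_blocks hA (sn_neg hB)
  have e1 : cls (fromBlocks A 0 0 (-B)) = cls A - cls B := by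
    rw [c2 _ _ _ _ hA (sn_neg hB), c4 _ _ hB, sub_eq_add_neg]
  have e2 : c • fromBlocks A 0 0 (-B) = fromBlocks (c • A) 0 0 (-(c • B)) := by
    rw [Matrix.fromBlocks_smul, smul_zero, smul_zero, smul_neg]
  have e3 := first _ _ hM (by rw [e1]; exact hI)
  rw [e2, c2 _ _ _ _ (sn_smul hA hc) (sn_neg (sn_smul hB hc)), c4 _ _ (sn_smul hB hc), e1] at e3
  rw [sub_eq_add_neg, e3]

end Pool.Agent.H17.WT
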